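import Pool.Agent.H32.N6H.Targets

/-!
# Row FRM of n6h_modules: the discriminants of the sections in the eigenbasis
-/

set_option autoImplicit false

open Polynomial Matrix NumberField IsDedekindDomain Pool.Agent.H32.QC Pool.Agent.H34.N6
open Pool.Agent.H32.N6H

namespace Pool.Agent.H46.N6H

variable {E : Type} [Field E] {n : ℕ}

theorem cc_apply (v : Fin n → E) (i : Fin n) : cc v i = C (v i) := rfl

theorem map_cc (A : Matrix (Fin n) (Fin n) E) (v : Fin n → E) :
    A.map (C : E →+* E[X]) *ᵥ cc v = cc (A *ᵥ v) := by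
  funext i
  rw [cc_apply]
  exact (RingHom.map_mulVec (C : E →+* E[X]) A v i).symm

theorem cc_smul (a : E) (v : Fin n → E) : cc (a • v) = C a • cc v := by
  funext i
  simp only [cc_apply, Pi.smul_apply, smul_eq_mul, map_mul]

theorem cc_sum (s : Finset (Fin n)) (f : Fin n → Fin n → E) :
    cc (∑ i ∈ s, f i) = ∑ i ∈ s, cc (f i) := by
  funext j
  simp only [cc_apply, Finset.sum_apply, map_sum]

theorem cc_dot (u v : Fin n → E) : cc u ⬝ᵥ cc v = C (u ⬝ᵥ v) := by
  simp only [dotProduct, cc_apply, map_sum, map_mul]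

theorem pen_mul (A B : Matrix (Fin n) (Fin n) E) (t : E) (k : Fin n → E)
    (h : A *ᵥ k = t • (B *ᵥ k)) :
    pen A B *ᵥ cc k = (C t - X) • cc (B *ᵥ k) := by
  unfold pen
  rw [Matrix.sub_mulVec, Matrix.smul_mulVec, map_cc, map_cc, h, cc_smul, sub_smul]

theorem adj_mul (A B : Matrix (Fin n) (Fin n) E) (t : Fin n → E) (k : Fin n → Fin n → E)
    (hdet : (pen A B).det = C B.det * ∏ i, (C (t i) - X))
    (hk : ∀ i, A *ᵥ k i = t i • (B *ᵥ k i)) (i : Fin n) :
    (pen A B).adjugate *ᵥ cc (B *ᵥ k i) =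
      (C B.det * ∏ j ∈ Finset.univ.erase i, (C (t j) - X)) • cc (k i) := by
  have h1 : (pen A B).adjugate *ᵥ (pen A B *ᵥ cc (k i)) = (pen A B).det • cc (k i) := by
    rw [Matrix.mulVec_mulVec, Matrix.adjugate_mul, Matrix.smul_mulVec, Matrix.one_mulVec]
  rw [pen_mul A B (t i) (k i) (hk i), Matrix.mulVec_smul, hdet,
    ← Finset.mul_prod_erase Finset.univ (fun j => (C (t j) - X : E[X])) (Finset.mem_univ i)] at h1
  have h2 : (C (t i) - X : E[X]) ≠ 0 := by
    intro h3
    have h4 := congrArg (fun p : E[X] => p.coeff 1) h3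
    simp [coeff_X, coeff_C] at h4
  funext j
  have h3 := congrFun h1 j
  simp only [Pi.smul_apply, smul_eq_mul] at h3 ⊢
  apply mul_left_cancel₀ h2
  rw [h3]
  ring

theorem pf_FRM : T_FRM := by
  intro E _ n A B t k hA hB hB0 hdet hk hort y
  unfold pl
  have h1 : cc (∑ i, y i • (B *ᵥ k i)) = ∑ i, C (y i) • cc (B *ᵥ k i) := by
    rw [cc_sum]
    exact Finset.sum_congr rfl fun i _ => cc_smul _ _
  rw [h1, Matrix.mulVec_sum, sum_dotProduct, Finset.mul_sum]
  refine Finset.sum_congr rfl fun i _ => ?_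
  rw [dotProduct_sum, Finset.sum_eq_single i]
  · rw [Matrix.mulVec_smul, adj_mul A B t k hdet hk i, smul_dotProduct, dotProduct_smul,
      dotProduct_smul, cc_dot, dotProduct_comm]
    simp only [smul_eq_mul, map_mul, map_pow]
    ring
  · intro j _ hij
    rw [Matrix.mulVec_smul, adj_mul A B t k hdet hk j, smul_dotProduct, dotProduct_smul,
      dotProduct_smul, cc_dot, dotProduct_comm, hort j i hij]
    simp
  · intro h
    exact absurd (Finset.mem_univ i) h

end Pool.Agent.H46.N6H
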